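import Pool.Agent.LLV.Model
import Pool.Agent.LLV.Trans

/-!
# Mukai transforms and rational Hodge rings

Two Hodge algebras of hyper-Kähler type which are related by a Mukai transform are isomorphic as
graded `ℚ`-algebras with Hodge structure, and the isomorphism is the Mukai transform followed by
a unit of the algebra generated by cup products with rational `(1,1)`-classes and their Lefschetz
dual operators.
-/

open scoped TensorProduct

namespace Pool.Agent.Results.MP_7216a2_ag.RationalHodgeRing

open Pool.Agent.LLV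

theorem result {n : ℕ} {V A V' A' : Type*} [AddCommGroup V] [Module ℚ V] [Ring A]
    [Algebra ℚ A] [AddCommGroup V'] [Module ℚ V'] [Ring A'] [Algebra ℚ A']
    {X : HodgeLLV n V A} {X' : HodgeLLV n V' A'} (F : MukaiTransform X X') :
    ∃ T : A ≃ₐ[ℚ] A',
      (∀ i, (X.gr i).map T.toLinearMap = X'.gr i) ∧
      (∀ p q, (X.hodge p q).map (T.toLinearMap.baseChange ℂ) = X'.hodge p q) ∧
      ∃ γ δ : Module.End ℚ A', γ ∈ X'.lefAlg ∧ δ ∈ X'.lefAlg ∧ γ * δ = 1 ∧ δ * γ = 1 ∧
        ∀ a, T a = γ (F.Φ a) :=
  final F

end Pool.Agent.Results.MP_7216a2_ag.RationalHodgeRing
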